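import Pool.Agent.Y947.RL.Stm3

/-!
# Project RL (helper947): multiplication of the zeros by a root of unity
-/

set_option autoImplicit false

open Finset Polynomial Module

namespace Pool.Agent.Y545.RL

open Pool.Agent.Y947.RL

theorem sp_scale {A : Type*} [CommRing A] [Nontrivial A] (ω : A) {F : ℤ[X][X]} (hF : F.Monic)
    (k : ℕ) : sp ω (F.scaleRoots (X ^ k)) = (sp ω F).scaleRoots (ω ^ k) := by
  unfold sp
  rw [Polynomial.map_scaleRoots]
  · congr 1
    show aeval ω ((X : ℤ[X]) ^ k) = ω ^ k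
    rw [map_pow, aeval_X]
  · rw [hF.leadingCoeff, map_one]
    exact one_ne_zero

theorem scale_irr {A : Type*} [Field A] {f : A[X]} (hf : Irreducible f) {s : A} (hs : s ≠ 0) :
    Irreducible (f.scaleRoots s) := by
  constructor
  · intro h
    rw [Polynomial.isUnit_iff_degree_eq_zero, Polynomial.degree_scaleRoots,
      ← Polynomial.isUnit_iff_degree_eq_zero] at h
    exact hf.not_isUnit h
  · intro a b hab
    have h1 : f = a.scaleRoots s⁻¹ * b.scaleRoots s⁻¹ := by
      rw [← Polynomial.mul_scaleRoots_of_noZeroDivisors, ← hab, ← Polynomial.scaleRoots_mul,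
        mul_inv_cancel₀ hs, Polynomial.scaleRoots_one]
    have h2 := hf.isUnit_or_isUnit h1
    rwa [Polynomial.isUnit_iff_degree_eq_zero, Polynomial.isUnit_iff_degree_eq_zero,
      Polynomial.degree_scaleRoots, Polynomial.degree_scaleRoots,
      ← Polynomial.isUnit_iff_degree_eq_zero, ← Polynomial.isUnit_iff_degree_eq_zero] at h2

theorem scale_eval (f : ℂ[X]) (s x : ℂ) :
    (f.scaleRoots s).eval (s * x) = s ^ f.natDegree * f.eval x :=
  Polynomial.scaleRoots_eval_mul f x s

theorem scale_root {f : ℂ[X]} {s : ℂ} (hs : s ≠ 0) {z : ℂ} (hz : (f.scaleRoots s).eval z = 0) :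
    f.eval (s⁻¹ * z) = 0 := by
  have h1 := scale_eval f s (s⁻¹ * z)
  rw [← mul_assoc, mul_inv_cancel₀ hs, one_mul, hz] at h1
  exact (mul_eq_zero.1 h1.symm).resolve_left (pow_ne_zero _ hs)

/-- rotation invariance of the circle average -/
theorem avg_rot (g : ℂ → ℝ) {c : ℂ} (hc : ‖c‖ = 1) :
    Real.circleAverage (fun x => g (c * x)) 0 1 = Real.circleAverage g 0 1 := by
  rw [Real.circleAverage_eq_integral_add (f := g) (Complex.arg c), Real.circleAverage_def]
  congr 1
  refine intervalIntegral.integral_congr fun θ _ => ?_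
  show g (c * circleMap 0 1 θ) = g (circleMap 0 1 (θ + Complex.arg c))
  congr 1
  unfold circleMap
  have h1 : c = Complex.exp (Complex.arg c * Complex.I) := by
    have := Complex.norm_mul_exp_arg_mul_I c
    rw [hc] at this
    simpa using this.symm
  conv_lhs => rw [h1]
  push_cast
  rw [add_mul, Complex.exp_add]
  ring

theorem avg_scale (φ : ℝ → ℝ) (f : ℂ[X]) {s : ℂ} (hs : ‖s‖ = 1) :
    Real.circleAverage (fun x => φ ‖(f.scaleRoots s).eval x‖) 0 1 =
      Real.circleAverage (fun x => φ ‖f.eval x‖) 0 1 := by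
  rw [← avg_rot (fun x => φ ‖(f.scaleRoots s).eval x‖) hs]
  congr 1
  funext x
  rw [scale_eval, norm_mul, norm_pow, hs, one_pow, one_mul]

theorem mahler_scale {f : ℂ[X]} (hf : f ≠ 0) {s : ℂ} (hs : ‖s‖ = 1) :
    (f.scaleRoots s).mahlerMeasure = f.mahlerMeasure := by
  unfold Polynomial.mahlerMeasure
  rw [if_pos hf, if_pos (Polynomial.scaleRoots_ne_zero hf s), Polynomial.logMahlerMeasure_def,
    Polynomial.logMahlerMeasure_def, avg_scale Real.log f hs]

theorem prod_scale {ι : Type*} (T : Finset ι) (a : ι → ℂ) (s : ℂ) :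
    (∏ t ∈ T, (X - C (a t))).scaleRoots s = ∏ t ∈ T, (X - C (s * a t)) := by
  classical
  induction T using Finset.induction_on with
  | empty =>
    rw [Finset.prod_empty, Finset.prod_empty]
    exact Polynomial.one_scaleRoots s
  | insert t T ht ih =>
    rw [Finset.prod_insert ht, Finset.prod_insert ht, Polynomial.mul_scaleRoots_of_noZeroDivisors,
      ih, Polynomial.X_sub_C_scaleRoots, mul_comm (a t) s]

theorem sc : T_SC := by
  intro m F hF k
  have hm := hF.hm
  have hne : ∀ ω : ℂ, IsPrimitiveRoot ω m → ω ^ k ≠ 0 := fun ω hω =>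
    pow_ne_zero _ (hω.ne_zero hm.ne')
  have hnorm : ∀ ω : ℂ, IsPrimitiveRoot ω m → ‖ω ^ k‖ = 1 := by
    intro ω hω
    rw [norm_pow, Complex.norm_eq_one_of_pow_eq_one hω.pow_eq_one hm.ne', one_pow]
  refine ⟨⟨hm, ?_, ?_, ?_, ?_, ?_⟩, ?_, ?_⟩
  · exact (Polynomial.monic_scaleRoots_iff _).2 hF.monic
  · intro ω hω
    rw [sp_scale _ hF.monic]
    refine scale_irr (hF.irr ω hω) (pow_ne_zero _ fun h => ?_)
    have h1 : algebraMap (IntermediateField.adjoin ℚ {ω}) ℂ
        (IntermediateField.AdjoinSimple.gen ℚ ω) = ω :=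
      IntermediateField.AdjoinSimple.algebraMap_gen ℚ ω
    rw [h, map_zero] at h1
    exact hω.ne_zero hm.ne' h1.symm
  · intro ω hω h
    rw [sp_scale _ hF.monic] at h
    have h1 := scale_root (hne ω hω) h
    rw [mul_zero] at h1
    exact hF.h0 ω hω h1
  · intro ω hω z hz j hj h
    rw [sp_scale _ hF.monic] at hz
    refine hF.hroot ω hω _ (scale_root (hne ω hω) hz) (j * m) (Nat.mul_pos hj hm) ?_
    rw [mul_pow, pow_mul z, h, one_pow, mul_one, inv_pow, ← pow_mul, ← mul_assoc, mul_comm _ m,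
      pow_mul, hω.pow_eq_one, one_pow, inv_one]
  · intro ω hω z w hz hw j hj h
    rw [sp_scale _ hF.monic] at hz hw
    have h1 := hF.quot ω hω _ _ (scale_root (hne ω hω) hz) (scale_root (hne ω hω) hw) j hj
      (by rw [mul_pow, mul_pow, h])
    exact mul_left_cancel₀ (inv_ne_zero (hne ω hω)) h1
  · intro ω hω
    rw [sp_scale _ hF.monic]
    refine ⟨mahler_scale (hF.monic.map _).ne_zero (hnorm ω hω), ?_⟩
    unfold mpc
    exact avg_scale Real.posLog _ (hnorm ω hω)
  · intro K _ _ ζ α h ω hω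
    rw [sp_scale _ hF.monic, h ω hω, prod_scale]
    refine Finset.prod_congr rfl fun τ hτ => ?_
    have h1 : τ ζ = ω := by
      unfold cls at hτ
      exact (Finset.mem_filter.1 hτ).2
    rw [map_mul τ, map_pow τ, h1]

end Pool.Agent.Y545.RL
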