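import Pool.Agent.Y947.RL.Stm2

/-!
# Project RL (helper947): reduction from `m` to `m / p`
-/

set_option autoImplicit false

open Finset Polynomial Module

namespace Pool.Agent.Y545.RL

open Pool.Agent.Y947.RL

theorem sp_map {A B : Type*} [CommRing A] [CommRing B] (φ : A →+* B) (ω : A) (F : ℤ[X][X]) :
    (sp ω F).map φ = sp (φ ω) F := by
  unfold sp
  rw [Polynomial.map_map]
  congr 1
  refine Polynomial.ringHom_ext (fun a => ?_) ?_
  · simp
  · show φ (aeval ω (X : ℤ[X])) = aeval (φ ω) (X : ℤ[X])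
    rw [aeval_X, aeval_X]

theorem sp_monic {A : Type*} [CommRing A] (ω : A) {F : ℤ[X][X]} (hF : F.Monic) :
    (sp ω F).Monic := hF.map _

theorem sp_coeff {A : Type*} [CommRing A] (ω : A) (F : ℤ[X][X]) (i : ℕ) :
    (sp ω F).coeff i = aeval ω (F.coeff i) := by
  unfold sp
  rw [Polynomial.coeff_map]
  rfl

/-- the contraction of all coefficients -/
noncomputable def con (p : ℕ) (F : ℤ[X][X]) : ℤ[X][X] :=
  ∑ i ∈ Finset.range (F.natDegree + 1), Polynomial.monomial i (Polynomial.contract p (F.coeff i))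

theorem contract_zero' (p : ℕ) : Polynomial.contract p (0 : ℤ[X]) = 0 := by
  rw [← Polynomial.C_0, Polynomial.contract_C]

theorem con_coeff (p : ℕ) (F : ℤ[X][X]) (j : ℕ) :
    (con p F).coeff j = Polynomial.contract p (F.coeff j) := by
  unfold con
  rw [Polynomial.finsetSum_coeff]
  simp only [Polynomial.coeff_monomial]
  rw [Finset.sum_ite_eq']
  split_ifs with h
  · rfl
  · rw [Finset.mem_range, not_lt] at h
    rw [Polynomial.coeff_eq_zero_of_natDegree_lt (by omega), contract_zero']

theorem con_monic (p : ℕ) {F : ℤ[X][X]} (hF : F.Monic) : (con p F).Monic := by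
  refine Polynomial.monic_of_natDegree_le_of_coeff_eq_one F.natDegree ?_ ?_
  · rw [Polynomial.natDegree_le_iff_coeff_eq_zero]
    intro N hN
    rw [con_coeff, Polynomial.coeff_eq_zero_of_natDegree_lt hN, contract_zero']
  · rw [con_coeff, hF.coeff_natDegree, ← Polynomial.C_1, Polynomial.contract_C]

/-- averaging over the `p`-th roots of unity -/
theorem avg {p : ℕ} (hp : p.Prime) {ξ : ℂ} (hξ : IsPrimitiveRoot ξ p) (ω : ℂ) (c : ℤ[X]) :
    ∑ j ∈ Finset.range p, aeval (ω * ξ ^ j) c = p * aeval (ω ^ p) (Polynomial.contract p c) := by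
  induction c using Polynomial.induction_on' with
  | add f g hf hg =>
    rw [Polynomial.contract_add hp.ne_zero]
    simp only [map_add, Finset.sum_add_distrib, mul_add]
    rw [hf, hg]
  | monomial k a =>
    have h1 : ∀ j ∈ Finset.range p, aeval (ω * ξ ^ j) (Polynomial.monomial k a) =
        (a : ℂ) * ω ^ k * (ξ ^ k) ^ j := by
      intro j _
      rw [Polynomial.aeval_monomial, mul_pow, ← pow_mul, ← pow_mul, mul_comm j k]
      simp [mul_assoc]
    rw [Finset.sum_congr rfl h1, ← Finset.mul_sum]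
    by_cases hk : p ∣ k
    · obtain ⟨l, rfl⟩ := hk
      have h2 : Polynomial.contract p (Polynomial.monomial (p * l) a) = Polynomial.monomial l a := by
        ext n
        rw [Polynomial.coeff_contract hp.ne_zero, Polynomial.coeff_monomial,
          Polynomial.coeff_monomial, mul_comm n p]
        by_cases h : l = n
        · rw [if_pos (by rw [h]), if_pos h]
        · rw [if_neg (fun h' => h (Nat.eq_of_mul_eq_mul_left hp.pos h')), if_neg h]
      rw [h2, Polynomial.aeval_monomial, pow_mul ξ, hξ.pow_eq_one, one_pow]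
      simp only [one_pow, Finset.sum_const, Finset.card_range, nsmul_eq_mul, mul_one]
      rw [pow_mul]
      simp
      ring
    · have h2 : Polynomial.contract p (Polynomial.monomial k a) = 0 := by
        ext n
        rw [Polynomial.coeff_contract hp.ne_zero, Polynomial.coeff_monomial, Polynomial.coeff_zero,
          if_neg]
        rintro rfl
        exact hk (dvd_mul_left _ _)
      have h3 : IsPrimitiveRoot (ξ ^ k) p :=
        hξ.pow_of_coprime k ((Nat.Prime.coprime_iff_not_dvd hp).2 hk).symm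
      rw [h2, map_zero, mul_zero, h3.geom_sum_eq_zero hp.one_lt, mul_zero]

/-- every primitive `m / p`-th root is the `p`-th power of a primitive `m`-th root -/
theorem exists_root {m p : ℕ} (hm : 0 < m) (hp : p.Prime) (hpm : p ^ 2 ∣ m) {ω' : ℂ}
    (hω' : IsPrimitiveRoot ω' (m / p)) : ∃ ω : ℂ, IsPrimitiveRoot ω m ∧ ω ^ p = ω' := by
  obtain ⟨ω, hω⟩ := IsAlgClosed.exists_pow_nat_eq ω' hp.pos
  refine ⟨ω, ?_, hω⟩
  obtain ⟨n, rfl⟩ := hpm
  have hmp : p ^ 2 * n / p = p * n := by
    rw [pow_two, mul_assoc, Nat.mul_div_cancel_left _ hp.pos]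
  rw [hmp] at hω'
  rw [IsPrimitiveRoot.iff_def]
  constructor
  · rw [pow_two, mul_assoc, pow_mul, hω, hω'.pow_eq_one]
  · intro l hl
    have h1 : p * n ∣ l := by
      refine hω'.dvd_of_pow_eq_one l ?_
      rw [← hω, ← pow_mul, mul_comm, pow_mul, hl, one_pow]
    obtain ⟨k, rfl⟩ := (dvd_mul_right p n).trans h1
    have h2 : p * n ∣ k := by
      refine hω'.dvd_of_pow_eq_one k ?_
      rw [← hω, ← pow_mul, hl]
    rw [pow_two, mul_assoc]
    exact mul_dvd_mul_left p h2

theorem mem_Gset {m p : ℕ} (hm : 0 < m) (hp : p.Prime) (hpm : p ^ 2 ∣ m) {j : ℕ} (hj : j < p) :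
    1 + j * (m / p) ∈ Gset m p := by
  obtain ⟨n, rfl⟩ := hpm
  have hmp : p ^ 2 * n / p = p * n := by
    rw [pow_two, mul_assoc, Nat.mul_div_cancel_left _ hp.pos]
  have hn : 0 < n := Nat.pos_of_ne_zero fun h => by simp [h] at hm
  have hp2 := hp.two_le
  unfold Gset
  rw [Finset.mem_filter, Finset.mem_range, hmp]
  refine ⟨?_, ?_, ?_⟩
  · have h1 : (j + 1) * (p * n) ≤ p * (p * n) := Nat.mul_le_mul_right _ hj
    have h2 : 1 < p * n := by nlinarith
    have h3 : (j + 1) * (p * n) = j * (p * n) + p * n := by ring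
    have h4 : p * (p * n) = p ^ 2 * n := by ring
    omega
  · have h1 : Nat.Coprime (1 + j * (p * n)) (p * n) := by
      rw [Nat.coprime_add_mul_right_left]
      exact Nat.coprime_one_left _
    have h2 : Nat.Coprime (1 + j * (p * n)) ((p * n) * (p * n)) := Nat.Coprime.mul_right h1 h1
    exact Nat.Coprime.coprime_dvd_right ⟨n, by ring⟩ h2
  · unfold Nat.ModEq
    rw [Nat.add_mul_mod_self_right]

theorem red : S_RED := by
  intro m F hF p hp hpm hfix
  have hm := hF.hm
  have key : ∀ ω : ℂ, IsPrimitiveRoot ω m → sp (ω ^ p) (con p F) = sp ω F := by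
    intro ω hω
    ext i
    rw [sp_coeff, sp_coeff, con_coeff]
    have hξ : IsPrimitiveRoot (ω ^ (m / p)) p := by
      have h := hω.pow hm (Nat.div_mul_cancel ((dvd_pow_self p two_ne_zero).trans hpm)).symm
      exact h
    have h1 := avg hp hξ ω (F.coeff i)
    have h2 : ∀ j ∈ Finset.range p, aeval (ω * (ω ^ (m / p)) ^ j) (F.coeff i) =
        aeval ω (F.coeff i) := by
      intro j hj
      have h3 := hfix ω hω _ (mem_Gset hm hp hpm (Finset.mem_range.1 hj))
      have h4 := congrArg (fun P => Polynomial.coeff P i) h3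
      simp only [sp_coeff] at h4
      rw [← h4, ← pow_mul, pow_add, pow_one, mul_comm j (m / p)]
    rw [Finset.sum_congr rfl h2, Finset.sum_const, Finset.card_range, nsmul_eq_mul] at h1
    have hp0 : (p : ℂ) ≠ 0 := by exact_mod_cast hp.ne_zero
    exact (mul_left_cancel₀ hp0 h1).symm
  refine ⟨con p F, ⟨?_, con_monic p hF.monic, ?_, ?_, ?_, ?_⟩, key⟩
  · exact Nat.div_pos (Nat.le_of_dvd hm ((dvd_pow_self p two_ne_zero).trans hpm)) hp.pos
  · intro ω' hω'
    obtain ⟨ω, hω, rfl⟩ := exists_root hm hp hpm hω'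
    have hle : IntermediateField.adjoin ℚ {ω ^ p} ≤ IntermediateField.adjoin ℚ {ω} := by
      rw [IntermediateField.adjoin_simple_le_iff]
      exact pow_mem (IntermediateField.mem_adjoin_simple_self ℚ ω) p
    refine Polynomial.Monic.irreducible_of_irreducible_map
      (IntermediateField.inclusion hle).toRingHom _ (sp_monic _ (con_monic p hF.monic)) ?_
    have h1 := hF.irr ω hω
    have h2 : (sp (IntermediateField.AdjoinSimple.gen ℚ (ω ^ p) :
        IntermediateField.adjoin ℚ {ω ^ p}) (con p F)).map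
        (IntermediateField.inclusion hle).toRingHom =
        sp (IntermediateField.AdjoinSimple.gen ℚ ω : IntermediateField.adjoin ℚ {ω}) F := by
      refine Polynomial.map_injective (algebraMap (IntermediateField.adjoin ℚ {ω}) ℂ)
        (algebraMap (IntermediateField.adjoin ℚ {ω}) ℂ).injective ?_
      rw [sp_map, sp_map, sp_map]
      exact key ω hω
    rw [h2]
    exact h1
  · intro ω' hω'
    obtain ⟨ω, hω, rfl⟩ := exists_root hm hp hpm hω'
    rw [key ω hω]
    exact hF.h0 ω hω
  · intro ω' hω'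
    obtain ⟨ω, hω, rfl⟩ := exists_root hm hp hpm hω'
    rw [key ω hω]
    exact hF.hroot ω hω
  · intro ω₁ ω₂ hω₁ hω₂
    obtain ⟨ω, hω, rfl⟩ := exists_root hm hp hpm hω₁
    obtain ⟨ω', hω', rfl⟩ := exists_root hm hp hpm hω₂
    rw [key ω hω, key ω' hω']
    exact hF.quot ω ω' hω hω'

end Pool.Agent.Y545.RL
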